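import Mathlib

/-!
# MP_4ee39a_co: jets of very well-covered uniform clutters need not be very well-covered

For every `d ≥ 3` and every `s ≥ 1` there is a very well-covered `d`-uniform clutter `C` (on `2 d`
vertices, every vertex lying in an edge) whose clutter of `s`-jets is not very well-covered: it has
a minimal vertex cover with fewer than `(s + 1) |X| / d` elements.

The vertices of `C` are `a_0, …, a_{d-1}, a'_0, …, a'_{d-1}`, its edges are
`{a_0, …, a_{d-1}}` and the `d` sets obtained from it by replacing one `a_j` by `a'_j`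
(the minimal vertex covers of the whiskered complete graph).
-/

namespace Pool.Agent.Results.MP_4ee39a_co.JetsFail

/-- A family `E` of finite subsets of `X` is a clutter if no member contains another one. -/
def IsClutter {X : Type} (E : Set (Finset X)) : Prop :=
  ∀ e ∈ E, ∀ f ∈ E, e ⊆ f → e = f

/-- Every member of `E` has exactly `d` elements. -/
def IsUniform {X : Type} (d : ℕ) (E : Set (Finset X)) : Prop :=
  ∀ e ∈ E, e.card = d

/-- `W` is a vertex cover of `E`: it meets every edge. -/
def IsCover {X : Type} (E : Set (Finset X)) (W : Finset X) : Prop :=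
  ∀ e ∈ E, ∃ x ∈ e, x ∈ W

/-- `W` is a minimal vertex cover of `E`: a vertex cover no proper subset of which is one. -/
def IsMinimalCover {X : Type} (E : Set (Finset X)) (W : Finset X) : Prop :=
  IsCover E W ∧ ∀ W' : Finset X, W' ⊂ W → ¬ IsCover E W'

/-- `E` is a very well-covered `d`-uniform clutter on the finite vertex set `X`: it is a clutter, it
is `d`-uniform, and every minimal vertex cover `W` satisfies `d * |W| = |X|`. -/
def VeryWellCovered {X : Type} [Fintype X] (d : ℕ) (E : Set (Finset X)) : Prop :=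
  IsClutter E ∧ IsUniform d E ∧ ∀ W : Finset X, IsMinimalCover E W → d * W.card = Fintype.card X

/-- The clutter of `s`-jets, on the vertex set `X × {0, …, s}` (the vertex `(x, j)` is `x_j`):
its edges are the sets `{(x, i x) : x ∈ e}` with `e ∈ E` and `∑ x ∈ e, i x ≤ s`. -/
def jets {X : Type} [DecidableEq X] (s : ℕ) (E : Set (Finset X)) :
    Set (Finset (X × Fin (s + 1))) :=
  {F | ∃ e ∈ E, ∃ i : X → Fin (s + 1), (∑ x ∈ e, (i x : ℕ)) ≤ s ∧
    F = e.image (fun x => (x, i x))}

/-! ### The example -/

/-- The edge of the example attached to `t`: `none` gives `{a_0, …, a_{d-1}}`, and `some j`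
replaces `a_j` by `a'_j`. -/
def edge (d : ℕ) (t : Option (Fin d)) : Finset (Fin d × Bool) :=
  Finset.univ.image (fun i : Fin d => (i, decide (t = some i)))

/-- The clutter of the example. -/
def exC (d : ℕ) : Set (Finset (Fin d × Bool)) := Set.range (edge d)

theorem mem_edge {d : ℕ} {t : Option (Fin d)} {i : Fin d} {b : Bool} :
    (i, b) ∈ edge d t ↔ b = decide (t = some i) := by
  simp only [edge, Finset.mem_image, Finset.mem_univ, true_and, Prod.mk.injEq]
  constructor
  · rintro ⟨j, rfl, rfl⟩; rfl
  · rintro rfl; exact ⟨i, rfl, rfl⟩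

theorem card_edge {d : ℕ} (t : Option (Fin d)) : (edge d t).card = d := by
  rw [edge, Finset.card_image_of_injective]
  · simp
  · intro i j hij
    exact (Prod.mk.injEq _ _ _ _ ▸ hij).1

theorem exC_uniform (d : ℕ) : IsUniform d (exC d) := by
  rintro _ ⟨t, rfl⟩
  exact card_edge t

theorem exC_clutter (d : ℕ) : IsClutter (exC d) := by
  rintro _ ⟨t, rfl⟩ _ ⟨u, rfl⟩ h
  exact Finset.eq_of_subset_of_card_le h (by rw [card_edge, card_edge])

theorem exC_pair {d : ℕ} (W : Finset (Fin d × Bool)) (hW : IsCover (exC d) W) :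
    ∃ W' ⊆ W, W'.card = 2 ∧ IsCover (exC d) W' := by
  obtain ⟨⟨i, b⟩, hi, hiW⟩ := hW _ ⟨none, rfl⟩
  rw [mem_edge] at hi
  have hb : b = false := by simpa using hi
  subst hb
  obtain ⟨⟨k, b⟩, hk, hkW⟩ := hW _ ⟨some i, rfl⟩
  rw [mem_edge] at hk
  by_cases hki : i = k
  · subst hki
    have hb : b = true := by simpa using hk
    subst hb
    refine ⟨{(i, false), (i, true)}, ?_, ?_, ?_⟩
    · intro x hx
      simp only [Finset.mem_insert, Finset.mem_singleton] at hx
      rcases hx with rfl | rfl <;> assumption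
    · rw [Finset.card_pair]; simp
    · rintro _ ⟨t, rfl⟩
      refine ⟨(i, decide (t = some i)), mem_edge.2 rfl, ?_⟩
      cases hdec : decide (t = some i) <;> simp
  · have hb : b = false := by simpa [hki] using hk
    subst hb
    refine ⟨{(i, false), (k, false)}, ?_, ?_, ?_⟩
    · intro x hx
      simp only [Finset.mem_insert, Finset.mem_singleton] at hx
      rcases hx with rfl | rfl <;> assumption
    · rw [Finset.card_pair]; simpa using hki
    · rintro _ ⟨t, rfl⟩
      by_cases ht : t = some i
      · refine ⟨(k, false), mem_edge.2 ?_, by simp⟩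
        subst ht
        simp [hki]
      · exact ⟨(i, false), mem_edge.2 (by simp [ht]), by simp⟩

theorem exC_veryWellCovered (d : ℕ) : VeryWellCovered d (exC d) := by
  refine ⟨exC_clutter d, exC_uniform d, ?_⟩
  rintro W ⟨hW, hmin⟩
  obtain ⟨W', hsub, hcard, hcov⟩ := exC_pair W hW
  rcases hsub.eq_or_ssubset with h | h
  · rw [← h, hcard]
    simp [Fintype.card_prod]
  · exact absurd hcov (hmin W' h)

/-- The weights of a fractional-type cover: `s` on `a_0`, `s - 1` on `a'_0`, `1` on `a_1, a_2`. -/
def wt {d : ℕ} (s : ℕ) (x : Fin d × Bool) : ℕ :=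
  if (x.1 : ℕ) = 0 then (if x.2 then s - 1 else s)
  else if (x.1 : ℕ) = 1 ∨ (x.1 : ℕ) = 2 then (if x.2 then 0 else 1) else 0

/-- The small cover of the jets. -/
def cov (d s : ℕ) : Finset ((Fin d × Bool) × Fin (s + 1)) :=
  Finset.univ.filter (fun v => (v.2 : ℕ) < wt s v.1)

theorem cov_isCover {d s : ℕ} (hd : 3 ≤ d) (hs : 1 ≤ s) : IsCover (jets s (exC d)) (cov d s) := by
  rintro _ ⟨_, ⟨t, rfl⟩, i, hi, rfl⟩
  by_contra hcon
  push Not at hcon
  have hge : ∀ x ∈ edge d t, wt s x ≤ (i x : ℕ) := by
    intro x hx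
    have := hcon (x, i x) (Finset.mem_image_of_mem _ hx)
    simp only [cov, Finset.mem_filter, Finset.mem_univ, true_and, not_lt] at this
    exact this
  let j0 : Fin d := ⟨0, by omega⟩
  let j1 : Fin d := ⟨1, by omega⟩
  let j2 : Fin d := ⟨2, by omega⟩
  let x0 : Fin d × Bool := (j0, decide (t = some j0))
  let x1 : Fin d × Bool := (j1, decide (t = some j1))
  let x2 : Fin d × Bool := (j2, decide (t = some j2))
  have h01 : j0 ≠ j1 := by simp [j0, j1]
  have h02 : j0 ≠ j2 := by simp [j0, j2]
  have h12 : j1 ≠ j2 := by simp [j1, j2]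
  have hx0 : x0 ∈ edge d t := mem_edge.2 rfl
  have hx1 : x1 ∈ edge d t := mem_edge.2 rfl
  have hx2 : x2 ∈ edge d t := mem_edge.2 rfl
  have hsub : ({x0, x1, x2} : Finset (Fin d × Bool)) ⊆ edge d t := by
    intro x hx
    simp only [Finset.mem_insert, Finset.mem_singleton] at hx
    rcases hx with rfl | rfl | rfl <;> assumption
  have hsum : (∑ x ∈ ({x0, x1, x2} : Finset (Fin d × Bool)), wt s x) ≤ s := by
    calc (∑ x ∈ ({x0, x1, x2} : Finset (Fin d × Bool)), wt s x)
        ≤ ∑ x ∈ edge d t, wt s x := Finset.sum_le_sum_of_subset hsub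
      _ ≤ ∑ x ∈ edge d t, (i x : ℕ) := Finset.sum_le_sum hge
      _ ≤ s := hi
  rw [Finset.sum_insert, Finset.sum_insert, Finset.sum_singleton] at hsum
  · have e0 : wt s x0 = if t = some j0 then s - 1 else s := by
      simp [wt, x0, j0]
    have e1 : wt s x1 = if t = some j1 then 0 else 1 := by
      simp [wt, x1, j1]
    have e2 : wt s x2 = if t = some j2 then 0 else 1 := by
      simp [wt, x2, j2]
    rw [e0, e1, e2] at hsum
    by_cases c0 : t = some j0
    · have c1 : t ≠ some j1 := by rw [c0]; simpa using h01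
      have c2 : t ≠ some j2 := by rw [c0]; simpa using h02
      rw [if_pos c0, if_neg c1, if_neg c2] at hsum
      omega
    · by_cases c1 : t = some j1
      · have c2 : t ≠ some j2 := by rw [c1]; simpa using h12
        rw [if_neg c0, if_pos c1, if_neg c2] at hsum
        omega
      · rw [if_neg c0, if_neg c1] at hsum
        omega
  · simp only [Finset.mem_singleton]
    intro h; exact h12 (congrArg Prod.fst h)
  · simp only [Finset.mem_insert, Finset.mem_singleton]
    rintro (h | h)
    · exact h01 (congrArg Prod.fst h)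
    · exact h02 (congrArg Prod.fst h)

theorem sum_wt {d s : ℕ} (hd : 3 ≤ d) (hs : 1 ≤ s) :
    (∑ x : Fin d × Bool, wt s x) = 2 * s + 1 := by
  obtain ⟨k, rfl⟩ : ∃ k, d = k + 3 := ⟨d - 3, by omega⟩
  rw [Fintype.sum_prod_type]
  simp only [Fintype.sum_bool]
  rw [Fin.sum_univ_succ, Fin.sum_univ_succ, Fin.sum_univ_succ]
  have h0 : ∀ i : Fin k, wt s ((i.succ.succ.succ : Fin (k + 3)), true)
      + wt s ((i.succ.succ.succ : Fin (k + 3)), false) = 0 := by
    intro i
    simp [wt]
  rw [Finset.sum_eq_zero (fun i _ => h0 i)]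
  have h2 : 2 % (k + 3) = 2 := Nat.mod_eq_of_lt (by omega)
  simp [wt, h2]
  omega

theorem card_cov {d s : ℕ} (hd : 3 ≤ d) (hs : 1 ≤ s) : (cov d s).card ≤ 2 * s + 1 := by
  rw [← sum_wt hd hs]
  have h1 : (cov d s) ⊆ (Finset.univ : Finset (Fin d × Bool)).biUnion
      (fun x => (Finset.univ.filter (fun j : Fin (s + 1) => (j : ℕ) < wt s x)).image
        (fun j => (x, j))) := by
    rintro ⟨x, j⟩ hx
    simp only [cov, Finset.mem_filter, Finset.mem_univ, true_and] at hx
    simp only [Finset.mem_biUnion, Finset.mem_univ, true_and, Finset.mem_image,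
      Finset.mem_filter]
    exact ⟨x, j, hx, rfl⟩
  refine (Finset.card_le_card h1).trans (Finset.card_biUnion_le.trans ?_)
  apply Finset.sum_le_sum
  intro x _
  refine Finset.card_image_le.trans ?_
  have : (Finset.univ.filter (fun j : Fin (s + 1) => (j : ℕ) < wt s x)).card
      = ((Finset.univ.filter (fun j : Fin (s + 1) => (j : ℕ) < wt s x)).map
          Fin.valEmbedding).card := by
    rw [Finset.card_map]
  rw [this]
  refine (Finset.card_le_card (t := Finset.range (wt s x)) ?_).trans (by simp)
  intro n hn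
  simp only [Finset.mem_map, Finset.mem_filter, Finset.mem_univ, true_and] at hn
  obtain ⟨j, hj, rfl⟩ := hn
  simpa using hj

theorem exists_minimalCover_subset {X : Type} (E : Set (Finset X)) (W : Finset X)
    (hW : IsCover E W) : ∃ W' ⊆ W, IsMinimalCover E W' := by
  induction W using Finset.strongInduction with
  | H W ih =>
    by_cases h : ∀ W' : Finset X, W' ⊂ W → ¬ IsCover E W'
    · exact ⟨W, subset_rfl, hW, h⟩
    · push Not at h
      obtain ⟨W', hsub, hcov⟩ := h
      obtain ⟨W'', h1, h2⟩ := ih W' hsub hcov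
      exact ⟨W'', h1.trans hsub.subset, h2⟩

/-- For every `d ≥ 3` and every `s ≥ 1` there is a very well-covered `d`-uniform clutter `C`, all of
whose vertices lie in edges, such that the clutter of `s`-jets of `C` has a minimal vertex cover
`W` with `|W| < (s + 1) |X| / d`; in particular the clutter of `s`-jets of `C` is not very
well-covered. -/
theorem result : ∀ d s : ℕ, 3 ≤ d → 1 ≤ s →
    ∃ (X : Type) (_ : Fintype X) (_ : DecidableEq X) (C : Set (Finset X)),
      VeryWellCovered d C ∧ (∀ x : X, ∃ e ∈ C, x ∈ e) ∧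
      (∃ W : Finset (X × Fin (s + 1)), IsMinimalCover (jets s C) W ∧
        d * W.card < (s + 1) * Fintype.card X) ∧
      ¬ VeryWellCovered d (jets s C) := by
  intro d s hd hs
  refine ⟨Fin d × Bool, inferInstance, inferInstance, exC d, exC_veryWellCovered d, ?_, ?_⟩
  · rintro ⟨i, b⟩
    cases b
    · exact ⟨_, ⟨none, rfl⟩, mem_edge.2 (by simp)⟩
    · exact ⟨_, ⟨some i, rfl⟩, mem_edge.2 (by simp)⟩
  · obtain ⟨W, hWsub, hWmin⟩ := exists_minimalCover_subset _ _ (cov_isCover hd hs)
    have hcard : W.card ≤ 2 * s + 1 := (Finset.card_le_card hWsub).trans (card_cov hd hs)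
    have hlt : d * W.card < (s + 1) * Fintype.card (Fin d × Bool) := by
      have h1 : d * W.card ≤ d * (2 * s + 1) := Nat.mul_le_mul_left _ hcard
      have h2 : Fintype.card (Fin d × Bool) = d * 2 := by simp
      rw [h2]
      have h3 : (s + 1) * (d * 2) = d * (2 * s + 1) + d := by ring
      omega
    refine ⟨⟨W, hWmin, hlt⟩, ?_⟩
    rintro ⟨-, -, h⟩
    have h1 := h W hWmin
    have h4 : Fintype.card ((Fin d × Bool) × Fin (s + 1))
        = (s + 1) * Fintype.card (Fin d × Bool) := by
      rw [Fintype.card_prod (Fin d × Bool), Fintype.card_fin, Nat.mul_comm]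
    rw [h4] at h1
    omega

end Pool.Agent.Results.MP_4ee39a_co.JetsFail
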